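import Pool.Agent.R489.HB.Stm

/-!
# Project HB (MP_ffa969_co), piece GEO (helper408): from a scheme of centres to a colouring of balls
-/

set_option autoImplicit false

namespace Pool.Agent.R408.HB

open Pool.Agent.R489.HB

variable {V : Type} {G : SimpleGraph V} {A : V → Fin 3 → Prop} {n : V → Fin 3 → V}
  {t : V → Fin 3 → ℝ}

/-- the centre of colour `i` near `u` -/
def Ctr (hS : Sch G A n t) (u : V) (i : Fin 3) (hA : A u i) : Pt G :=
  ⟨u, n u i, t u i, Or.inr ⟨hS.adj u i hA, (hS.pos u i).le, by linarith [hS.half u i]⟩⟩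

/-- the point at an isolated vertex -/
def Iso (G : SimpleGraph V) (u : V) : Pt G := ⟨u, u, 0, Or.inl ⟨rfl, rfl⟩⟩

theorem walk_iso {u y : V} (hu : ∀ w, ¬ G.Adj u w) (k : G.Walk u y) : u = y := by
  cases k with
  | nil => rfl
  | cons h _ => exact absurd h (hu _)

theorem iso1 {u : V} (hu : ∀ w, ¬ G.Adj u w) (q : Pt G) (h : dle (Iso G u) q (1 / 2)) :
    q.u = u ∧ q.w = u := by
  rcases h with ⟨h1, h2, -⟩ | ⟨h1, -⟩ | ⟨x, y, α, β, k, hx, hy, -⟩
  · exact ⟨h1.symm, h2.symm⟩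
  · exact absurd h1 (hu _)
  · have hxu : x = u := by
      rcases hx with ⟨h, -⟩ | ⟨h, -⟩
      · exact h
      · exact absurd rfl h
    subst hxu
    have hyx := walk_iso hu k
    subst hyx
    rcases hy with ⟨h, -⟩ | ⟨h, h', -⟩
    · refine ⟨h.symm, ?_⟩
      rcases q.h with ⟨h1, -⟩ | ⟨h1, -⟩
      · rw [← h1]; exact h.symm
      · rw [← h] at h1
        exact absurd h1 (hu _)
    · exfalso
      rcases q.h with ⟨h1, -⟩ | ⟨h1, -⟩
      · exact h h1
      · rw [← h'] at h1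
        exact hu _ h1.symm

theorem iso2 (hS : Sch G A n t) {u : V} (hu : ∀ w, ¬ G.Adj u w) (q : Pt G) (hq : q.u = u)
    (hq' : q.w = u) (u' : V) (i : Fin 3) (hA : A u' i) (h : dle (Ctr hS u' i hA) q (1 / 2)) :
    False := by
  have hadj := hS.adj u' i hA
  rcases h with ⟨h1, -⟩ | ⟨-, h1, -⟩ | ⟨x, y, α, β, k, hx, hy, -⟩
  · have h2 : u' = u := h1.trans hq
    rw [h2] at hadj
    exact hu _ hadj
  · have h2 : u' = u := h1.trans hq'
    rw [h2] at hadj
    exact hu _ hadj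
  · have hyu : y = u := by
      rcases hy with ⟨h, -⟩ | ⟨-, h, -⟩
      · exact h.trans hq
      · exact h.trans hq'
    subst hyu
    have hyx := walk_iso hu k.reverse
    rcases hx with ⟨h, -⟩ | ⟨-, h, -⟩
    · have h2 : u' = y := h.symm.trans hyx.symm
      rw [h2] at hadj
      exact hu _ hadj
    · have h2 : n u' i = y := h.symm.trans hyx.symm
      rw [h2] at hadj
      exact hu _ hadj.symm

theorem GEO (hT : S_TRI) (hC : S_CNF) : S_GEO := by
  classical
  intro V G A n t hS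
  let P : Set (Pt G) → Fin 3 → Prop := fun b i => ∃ (u : V) (hA : A u i), b = hball (Ctr hS u i hA)
  let Q : Set (Pt G) → Prop := fun b => ∃ u : V, (∀ w, ¬ G.Adj u w) ∧ b = hball (Iso G u)
  let f : Set (Pt G) → Fin 3 := fun b => if h : ∃ i, P b i then h.choose else 0
  have hf : ∀ b, (∃ i, P b i) → P b (f b) := by
    intro b hb
    have : f b = hb.choose := dif_pos hb
    rw [this]
    exact hb.choose_spec
  refine ⟨{b | (∃ i, P b i) ∨ Q b}, f, ?_, ?_, ?_⟩
  · rintro b (⟨i, u, hA, rfl⟩ | ⟨u, -, rfl⟩)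
    · exact ⟨_, rfl⟩
    · exact ⟨_, rfl⟩
  · intro q
    rcases q.h with ⟨h1, h2⟩ | ⟨h1, h2, h3⟩
    · by_cases hu : ∀ w, ¬ G.Adj q.u w
      · refine ⟨hball (Iso G q.u), Or.inr ⟨q.u, hu, rfl⟩, Or.inl ⟨rfl, h1, ?_⟩⟩
        show |(0 : ℝ) - q.s| ≤ 1 / 2
        rw [h2]
        norm_num
      · push Not at hu
        obtain ⟨w, hw⟩ := hu
        obtain ⟨i, hA⟩ := hS.vert _ _ hw
        refine ⟨hball (Ctr hS q.u i hA), Or.inl ⟨i, q.u, hA, rfl⟩, Or.inr (Or.inr
          ⟨q.u, q.u, t q.u i, q.s, SimpleGraph.Walk.nil, Or.inl ⟨rfl, rfl⟩, Or.inl ⟨rfl, rfl⟩, ?_⟩)⟩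
        rw [h2, SimpleGraph.Walk.length_nil]
        have := hS.half q.u i
        push_cast
        linarith
    · rcases hS.cover _ _ h1 with ⟨i, j, hA, hn, hA', ht⟩ | ⟨i, j, hA, hn, hA', ht⟩
      · by_cases hs : q.s ≤ t q.u i + 1 / 2
        · refine ⟨hball (Ctr hS q.u i hA), Or.inl ⟨i, q.u, hA, rfl⟩, Or.inl ⟨rfl, hn, ?_⟩⟩
          show |t q.u i - q.s| ≤ 1 / 2
          rw [abs_le]
          have := hS.half q.u i
          constructor <;> linarith
        · refine ⟨hball (Ctr hS q.w j hA'), Or.inl ⟨j, q.w, hA', rfl⟩, Or.inr (Or.inr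
            ⟨q.w, q.w, t q.w j, 1 - q.s, SimpleGraph.Walk.nil, Or.inl ⟨rfl, rfl⟩,
              Or.inr ⟨h1.ne, rfl, rfl⟩, ?_⟩)⟩
          rw [SimpleGraph.Walk.length_nil]
          push_cast
          push Not at hs
          linarith
      · by_cases hs : 1 - q.s ≤ t q.w i + 1 / 2
        · refine ⟨hball (Ctr hS q.w i hA), Or.inl ⟨i, q.w, hA, rfl⟩, Or.inr (Or.inl
            ⟨hS.adj q.w i hA, rfl, hn, ?_⟩)⟩
          show |t q.w i - (1 - q.s)| ≤ 1 / 2
          rw [abs_le]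
          have := hS.half q.w i
          constructor <;> linarith
        · refine ⟨hball (Ctr hS q.u j hA'), Or.inl ⟨j, q.u, hA', rfl⟩, Or.inr (Or.inr
            ⟨q.u, q.u, t q.u j, q.s, SimpleGraph.Walk.nil, Or.inl ⟨rfl, rfl⟩,
              Or.inl ⟨rfl, rfl⟩, ?_⟩)⟩
          rw [SimpleGraph.Walk.length_nil]
          push_cast
          push Not at hs
          linarith
  · intro b hb b' hb' hne hq hff
    obtain ⟨q, hq1, hq2⟩ := hq
    rcases hb with hb | ⟨u, hu, rfl⟩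
    · rcases hb' with hb' | ⟨u', hu', rfl⟩
      · have hP := hf b hb
        have hP' := hf b' hb'
        rw [← hff] at hP'
        generalize f b = i at hP hP'
        obtain ⟨u, hA, e1⟩ := hP
        obtain ⟨u', hA', e2⟩ := hP'
        rw [e1] at hq1
        rw [e2] at hq2
        have h1 : dle (Ctr hS u i hA) (Ctr hS u' i hA') (1 / 2 + 1 / 2) :=
          hT V G _ q _ _ _ hq1 hq2
        rw [show (1 / 2 + 1 / 2 : ℝ) = 1 by norm_num] at h1
        have h2 := hC V G A n t hS u u' i _ _ hA hA' rfl rfl rfl rfl rfl rfl h1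
        subst h2
        exact hne (e1.trans e2.symm)
      · obtain ⟨i, u, hA, e1⟩ := hb
        rw [e1] at hq1
        obtain ⟨h1, h2⟩ := iso1 hu' q hq2
        exact iso2 hS hu' q h1 h2 u i hA hq1
    · obtain ⟨h1, h2⟩ := iso1 hu q hq1
      rcases hb' with ⟨i, u', hA, e1⟩ | ⟨u', hu', rfl⟩
      · rw [e1] at hq2
        exact iso2 hS hu q h1 h2 u' i hA hq2
      · obtain ⟨h3, -⟩ := iso1 hu' q hq2
        rw [h1] at h3
        rw [h3] at hne
        exact hne rfl

end Pool.Agent.R408.HB
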