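import Pool.Agent.R497.TB.Defs
import Pool.Agent.R497.TD.PINC
import Pool.Agent.Y86.MC.NiceC

/-!
# Project TB, piece BCT2 (helper408): deterministic control of box averages by the mean value
-/

set_option autoImplicit false

namespace Pool.Agent.R408.TB

open MeasureTheory Filter Pool.Agent.R497.TB
open Finset hiding box
open Pool.Agent.Y957.MC (box)
open Pool.Agent.R497.TD (S_PINC)
open Pool.Agent.Y86.MC (mem_box card_box sum_box card_split exists_root)

/-- counting points of a separated set in an interval -/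
theorem count_sep (S : Finset ℕ) (x : ℕ → ℝ) (A T u : ℝ) (hA : 0 < A) (hT : 0 ≤ T)
    (hx : ∀ m ∈ S, ∀ m' ∈ S, A * |(m : ℝ) - m'| ≤ |x m - x m'|) :
    ((S.filter (fun m => x m < u ∧ u ≤ T + x m)).card : ℝ) ≤ T / A + 1 := by
  rcases (S.filter (fun m => x m < u ∧ u ≤ T + x m)).eq_empty_or_nonempty with h | h
  · rw [h]; simp; positivity
  · set S' := S.filter (fun m => x m < u ∧ u ≤ T + x m) with hS'
    have h0 := S'.min'_mem h
    have h1 := S'.max'_mem h
    have hsub : S' ⊆ Icc (S'.min' h) (S'.max' h) := fun m hm =>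
      mem_Icc.2 ⟨S'.min'_le m hm, S'.le_max' m hm⟩
    have hcard := card_le_card hsub
    rw [Nat.card_Icc] at hcard
    have hle : S'.min' h ≤ S'.max' h := S'.min'_le _ h1
    generalize hm0 : S'.min' h = m0 at *
    generalize hm1 : S'.max' h = m1 at *
    obtain ⟨a1, a2, a3⟩ := mem_filter.1 h0
    obtain ⟨b1, b2, b3⟩ := mem_filter.1 h1
    have h5 := hx m1 b1 m0 a1
    have h6 : |x m1 - x m0| ≤ T := by rw [abs_le]; constructor <;> linarith
    have h7 : (m0 : ℝ) ≤ m1 := by exact_mod_cast hle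
    rw [abs_of_nonneg (by linarith)] at h5
    have h8 : (m1 : ℝ) - m0 ≤ T / A := by
      rw [le_div_iff₀ hA]; linarith
    have h9 : (S'.card : ℝ) ≤ (m1 : ℝ) + 1 - m0 := by
      have : ((S'.card : ℕ) : ℝ) ≤ ((m1 + 1 - m0 : ℕ) : ℝ) := by exact_mod_cast hcard
      rwa [Nat.cast_sub (by omega), Nat.cast_add, Nat.cast_one] at this
    linarith

theorem bdd_int (F : ℝ → ℝ) (hF : Measurable F) (hF1 : ∀ u, 0 ≤ F u ∧ F u ≤ 1) (a b : ℝ) :
    IntegrableOn F (Set.Ioc a b) := by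
  refine Measure.integrableOn_of_bounded (M := 1) (by simp) hF.aestronglyMeasurable ?_
  refine Eventually.of_forall fun u => ?_
  rw [Real.norm_eq_abs, abs_of_nonneg (hF1 u).1]
  exact (hF1 u).2

/-- sum of integrals over intervals which overlap few times -/
theorem sum_int (S : Finset ℕ) (x : ℕ → ℝ) (A T V : ℝ) (F : ℝ → ℝ) (hF : Measurable F)
    (hF1 : ∀ u, 0 ≤ F u ∧ F u ≤ 1) (hA : 0 < A) (hT : 0 ≤ T) (hV : 0 ≤ V)
    (hx : ∀ m ∈ S, ∀ m' ∈ S, A * |(m : ℝ) - m'| ≤ |x m - x m'|)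
    (hxV : ∀ m ∈ S, -V ≤ x m ∧ T + x m ≤ V) :
    ∑ m ∈ S, ∫ r in (0 : ℝ)..T, F (r + x m) ≤ (T / A + 1) * ∫ u in (-V)..V, F u := by
  have hVV : -V ≤ V := by linarith
  have h1 : ∀ m ∈ S, ∫ r in (0 : ℝ)..T, F (r + x m) =
      ∫ u in Set.Ioc (-V) V, (Set.Ioc (x m) (T + x m)).indicator F u := by
    intro m hm
    rw [intervalIntegral.integral_comp_add_right (fun u => F u) (x m), zero_add,
      intervalIntegral.integral_of_le (by linarith), setIntegral_indicator measurableSet_Ioc]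
    congr 2
    ext u
    simp only [Set.mem_inter_iff, Set.mem_Ioc]
    have := hxV m hm
    constructor
    · rintro ⟨h3, h4⟩
      exact ⟨⟨by linarith, by linarith⟩, h3, h4⟩
    · rintro ⟨_, h3⟩
      exact h3
  rw [sum_congr rfl h1, ← integral_finsetSum, intervalIntegral.integral_of_le hVV,
    ← integral_const_mul]
  · refine integral_mono_of_nonneg ?_ ((bdd_int F hF hF1 _ _).const_mul _) ?_
    · refine Eventually.of_forall fun u => ?_
      exact sum_nonneg fun m _ => Set.indicator_nonneg (fun v _ => (hF1 v).1) u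
    · refine Eventually.of_forall fun u => ?_
      show ∑ m ∈ S, (Set.Ioc (x m) (T + x m)).indicator F u ≤ (T / A + 1) * F u
      have h2 : ∑ m ∈ S, (Set.Ioc (x m) (T + x m)).indicator F u =
          ((S.filter (fun m => x m < u ∧ u ≤ T + x m)).card : ℝ) * F u := by
        rw [card_eq_sum_ones, Nat.cast_sum, sum_filter, sum_mul]
        refine sum_congr rfl fun m _ => ?_
        by_cases h3 : x m < u ∧ u ≤ T + x m
        · rw [if_pos h3, Set.indicator_of_mem (show u ∈ Set.Ioc (x m) (T + x m) from h3)]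
          simp
        · rw [if_neg h3, Set.indicator_of_notMem (show u ∉ Set.Ioc (x m) (T + x m) from h3)]
          simp
      rw [h2]
      exact mul_le_mul_of_nonneg_right (count_sep S x A T u hA hT hx) (hF1 u).1
  · intro m _
    exact (bdd_int F hF hF1 _ _).indicator measurableSet_Ioc

/-- separation of the values of a polynomial above the cutoff, positive leading coefficient -/
theorem sep_pos (P : Polynomial ℝ) (hd : 0 < P.natDegree) (hl : 0 < P.leadingCoeff) (j : ℕ) :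
    ∃ c : ℝ, 0 < c ∧ ∀ᶠ N : ℕ in atTop, ∀ m m' : ℕ, cut j N < m → m ≤ m' → m' ≤ N →
      c * (N : ℝ) ^ (P.natDegree - 1) * ((m' : ℝ) - m) ≤ P.eval (m' : ℝ) - P.eval (m : ℝ) := by
  obtain ⟨c, C, hc, _, h⟩ := Pool.Agent.R497.TD.PINC784.t_PINC P hd hl j
  refine ⟨c, hc, ?_⟩
  filter_upwards [h] with N hN m m' hm hmm' hm'
  obtain ⟨s, rfl⟩ := Nat.exists_eq_add_of_le hmm'
  clear hmm'
  induction s with
  | zero => simp
  | succ s ih =>
    have h1 := ih (by omega)
    have h2 := (hN (m + s - 1) (by unfold cut at hm; omega) (by omega)).1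
    have h3 : ((m + s - 1 : ℕ) : ℝ) = (m : ℝ) + s - 1 := by
      rw [Nat.cast_sub (by omega)]; push_cast; ring
    rw [h3] at h2
    rw [show (m : ℝ) + s - 1 + 2 = (m : ℝ) + (s + 1) by ring,
      show (m : ℝ) + s - 1 + 1 = (m : ℝ) + s by ring] at h2
    push_cast at h1 ⊢
    nlinarith

theorem sep_abs (P : Polynomial ℝ) (hd : 0 < P.natDegree) (j : ℕ) :
    ∃ c : ℝ, 0 < c ∧ ∀ᶠ N : ℕ in atTop, ∀ m m' : ℕ, cut j N < m → m ≤ N → cut j N < m' →
      m' ≤ N → c * (N : ℝ) ^ (P.natDegree - 1) * |(m : ℝ) - m'| ≤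
        |P.eval (m : ℝ) - P.eval (m' : ℝ)| := by
  have hP : P ≠ 0 := by rintro rfl; simp at hd
  rcases lt_or_gt_of_ne (Polynomial.leadingCoeff_ne_zero.2 hP) with hl | hl
  · obtain ⟨c, hc, h⟩ := sep_pos (-P) (by rwa [Polynomial.natDegree_neg])
      (by rw [Polynomial.leadingCoeff_neg]; linarith) j
    refine ⟨c, hc, ?_⟩
    filter_upwards [h] with N hN m m' h1 h2 h3 h4
    rw [Polynomial.natDegree_neg] at hN
    rcases le_total m m' with h5 | h5
    · have h6 := hN m m' h1 h5 h4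
      rw [Polynomial.eval_neg, Polynomial.eval_neg] at h6
      have h7 : (m : ℝ) ≤ m' := by exact_mod_cast h5
      rw [abs_of_nonpos (by linarith : (m : ℝ) - m' ≤ 0)]
      refine le_trans ?_ (le_abs_self _)
      linarith
    · have h6 := hN m' m h3 h5 h2
      rw [Polynomial.eval_neg, Polynomial.eval_neg] at h6
      have h7 : (m' : ℝ) ≤ m := by exact_mod_cast h5
      rw [abs_of_nonneg (by linarith : (0 : ℝ) ≤ (m : ℝ) - m')]
      refine le_trans ?_ (neg_le_abs _)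
      linarith
  · obtain ⟨c, hc, h⟩ := sep_pos P hd hl j
    refine ⟨c, hc, ?_⟩
    filter_upwards [h] with N hN m m' h1 h2 h3 h4
    rcases le_total m m' with h5 | h5
    · have h6 := hN m m' h1 h5 h4
      have h7 : (m : ℝ) ≤ m' := by exact_mod_cast h5
      rw [abs_of_nonpos (by linarith : (m : ℝ) - m' ≤ 0)]
      refine le_trans ?_ (neg_le_abs _)
      linarith
    · have h6 := hN m' m h3 h5 h2
      have h7 : (m' : ℝ) ≤ m := by exact_mod_cast h5
      rw [abs_of_nonneg (by linarith : (0 : ℝ) ≤ (m : ℝ) - m')]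
      refine le_trans ?_ (le_abs_self _)
      linarith

theorem size_bd (P : Polynomial ℝ) : ∃ C : ℝ, 0 ≤ C ∧ ∀ N m : ℕ, 1 ≤ N → m ≤ N →
    |P.eval (m : ℝ)| ≤ C * (N : ℝ) ^ P.natDegree := by
  refine ⟨∑ s ∈ range (P.natDegree + 1), |P.coeff s|, sum_nonneg fun _ _ => abs_nonneg _, ?_⟩
  intro N m hN hm
  rw [Polynomial.eval_eq_sum_range, sum_mul]
  refine (abs_sum_le_sum_abs _ _).trans (sum_le_sum fun s hs => ?_)
  rw [abs_mul, abs_of_nonneg (a := (m : ℝ) ^ s) (by positivity)]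
  refine mul_le_mul_of_nonneg_left ?_ (abs_nonneg _)
  have h1 : (m : ℝ) ≤ N := by exact_mod_cast hm
  have h2 : (1 : ℝ) ≤ N := by exact_mod_cast hN
  have h3 : s ≤ P.natDegree := by
    have := mem_range.1 hs
    omega
  exact (pow_le_pow_left₀ (Nat.cast_nonneg m) h1 s).trans (pow_le_pow_right₀ h2 h3)

theorem sep_update {k : ℕ} (p : Fin k → Polynomial ℝ) (i : Fin k) (m : Fin k → ℕ) (n : ℕ) :
    sep p (Function.update m i n) = (p i).eval (n : ℝ) +
      ∑ l ∈ univ.erase i, (p l).eval (m l : ℝ) := by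
  unfold sep
  rw [← Finset.add_sum_erase _ _ (Finset.mem_univ i), Function.update_self]
  congr 1
  refine Finset.sum_congr rfl fun l hl => ?_
  rw [Function.update_of_ne (Finset.ne_of_mem_erase hl)]

/-- the smoothed averages over a box -/
theorem box_bd {k d : ℕ} (p : Fin k → Polynomial ℝ) (hp : SD p d) (i : Fin k) (j : ℕ) (c C₀ : ℝ)
    (hc : 0 < c) (hC₀ : 0 ≤ C₀) (M : Fin k → ℕ) (hM1 : ∀ l, 1 ≤ M l)
    (hsep : ∀ m m' : ℕ, cut j (M i) < m → m ≤ M i → cut j (M i) < m' →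
      m' ≤ M i → c * ((M i : ℕ) : ℝ) ^ (d - 1) * |(m : ℝ) - m'| ≤
        |(p i).eval (m : ℝ) - (p i).eval (m' : ℝ)|)
    (hsize : ∀ m ∈ box M, |sep p m| ≤ C₀ * ((M i : ℕ) : ℝ) ^ d)
    (F : ℝ → ℝ) (hF : Measurable F) (hF1 : ∀ u, 0 ≤ F u ∧ F u ≤ 1) (a : ℝ) (ha1 : 1 ≤ a)
    (ha2 : a ≤ 2) (T : ℝ) (hT : 0 < T) (hT2 : T ≤ ((M i : ℕ) : ℝ) ^ d)
    (hT1 : ((M i : ℕ) : ℝ) ^ (d - 1) ≤ T) :
    ravg M (fun m => if cut j (M i) < m i then
      (1 / T) * ∫ r in (0 : ℝ)..T, F (r + a * sep p m) else 0) ≤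
    (1 / c + 1) * ((1 / ((M i : ℕ) : ℝ) ^ d) *
      ∫ u in (-((2 * C₀ + 1) * ((M i : ℕ) : ℝ) ^ d))..((2 * C₀ + 1) * ((M i : ℕ) : ℝ) ^ d), F u) := by
  set N : ℝ := ((M i : ℕ) : ℝ) with hN
  have hN1 : (1 : ℝ) ≤ N := by rw [hN]; exact_mod_cast hM1 i
  have hN0 : 0 < N := by linarith
  set V : ℝ := (2 * C₀ + 1) * N ^ d with hV
  have hV0 : 0 < V := by positivity
  set I : ℝ := ∫ u in (-V)..V, F u with hI
  have hI0 : 0 ≤ I := intervalIntegral.integral_nonneg (by linarith) fun u _ => (hF1 u).1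
  set A : ℝ := c * N ^ (d - 1) with hA
  have hA0 : 0 < A := by positivity
  unfold ravg
  rw [card_split i M, sum_box i M]
  have hline : ∀ m ∈ box (Function.update M i 1), (∑ n ∈ Icc 1 (M i),
      if cut j (M i) < (Function.update m i n) i then
        (1 / T) * ∫ r in (0 : ℝ)..T, F (r + a * sep p (Function.update m i n)) else 0) ≤
      (1 / T) * ((T / A + 1) * I) := by
    intro m hm
    simp only [Function.update_self]
    rw [← sum_filter, ← mul_sum]
    refine mul_le_mul_of_nonneg_left ?_ (by positivity)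
    refine sum_int _ (fun n => a * sep p (Function.update m i n)) A T V F hF hF1 hA0 hT.le hV0.le
      ?_ ?_
    · intro n hn n' hn'
      obtain ⟨h1, h2⟩ := mem_filter.1 hn
      obtain ⟨h3, h4⟩ := mem_filter.1 hn'
      rw [mem_Icc] at h1 h3
      have h5 := hsep n n' h2 h1.2 h4 h3.2
      simp only [sep_update]
      have h6 : a * ((p i).eval (n : ℝ) + ∑ l ∈ univ.erase i, (p l).eval (m l : ℝ)) -
          a * ((p i).eval (n' : ℝ) + ∑ l ∈ univ.erase i, (p l).eval (m l : ℝ)) =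
          a * ((p i).eval (n : ℝ) - (p i).eval (n' : ℝ)) := by ring
      rw [h6, abs_mul, abs_of_nonneg (by linarith : (0 : ℝ) ≤ a)]
      refine h5.trans ?_
      have := abs_nonneg ((p i).eval (n : ℝ) - (p i).eval (n' : ℝ))
      nlinarith
    · intro n hn
      obtain ⟨h1, h2⟩ := mem_filter.1 hn
      rw [mem_Icc] at h1
      have h7 : Function.update m i n ∈ box M := by
        rw [mem_box] at hm ⊢
        intro l
        by_cases hl : l = i
        · subst hl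
          rw [Function.update_self]
          exact h1
        · rw [Function.update_of_ne hl]
          have h3 := hm l
          rw [Function.update_of_ne hl] at h3
          exact h3
      have h8 := hsize _ h7
      have h9 : |a * sep p (Function.update m i n)| ≤ 2 * (C₀ * N ^ d) := by
        rw [abs_mul, abs_of_nonneg (by linarith : (0 : ℝ) ≤ a)]
        have := abs_nonneg (sep p (Function.update m i n))
        nlinarith
      rw [abs_le] at h9
      constructor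
      · rw [hV]
        have : 0 ≤ N ^ d := by positivity
        linarith [h9.1]
      · rw [hV]
        linarith [h9.2]
  have hB0 : (0 : ℝ) < ((box (Function.update M i 1)).card : ℝ) := by
    have h1 := card_split i M
    have h2 : 0 < ∏ l, M l := prod_pos fun l _ => hM1 l
    rw [h1] at h2
    exact_mod_cast Nat.pos_of_mul_pos_right h2
  refine (mul_le_mul_of_nonneg_left (sum_le_sum hline) (by positivity)).trans ?_
  rw [sum_const, nsmul_eq_mul]
  have e1 : 1 / (((box (Function.update M i 1)).card * M i : ℕ) : ℝ) *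
      (((box (Function.update M i 1)).card : ℝ) * (1 / T * ((T / A + 1) * I))) =
      (1 / N) * (1 / A + 1 / T) * I := by
    push_cast
    rw [← hN]
    field_simp
  rw [e1]
  have e2 : N ^ d = N ^ (d - 1) * N := by
    rw [← pow_succ, Nat.sub_add_cancel hp.1]
  have h1 : 1 / T ≤ 1 / N ^ (d - 1) := one_div_le_one_div_of_le (by positivity) hT1
  have e3 : (1 / c + 1) * ((1 / N ^ d) * I) = (1 / N) * (1 / A + 1 / N ^ (d - 1)) * I := by
    rw [e2, hA]
    field_simp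
  rw [e3]
  gcongr

/-- the ratio of the volumes -/
theorem ratio_bd {k : ℕ} (q : ℕ) (ζ : ℝ) (hζ0 : 0 < ζ) (hζ1 : ζ ≤ 1) (M t : Fin k → ℕ)
    (ht2 : ∀ l, M l < (t l + 2) ^ q) (htT : ∀ l, (q : ℝ) / ζ ≤ t l) :
    (1 - k * ζ) * ((∏ l, M l : ℕ) : ℝ) ≤ ((∏ l, gbx q t l : ℕ) : ℝ) := by
  have h1 : ∀ l, (1 - ζ) * (M l : ℝ) ≤ (gbx q t l : ℝ) := by
    intro l
    have h2 : (M l : ℝ) ≤ ((t l : ℝ) + 2) ^ q := by exact_mod_cast (ht2 l).le
    have h3 : (gbx q t l : ℝ) = ((t l : ℝ) + 1) ^ q := by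
      unfold gbx
      push_cast
      rfl
    have h4 : (1 - ζ) * ((t l : ℝ) + 2) ^ q ≤ ((t l : ℝ) + 1) ^ q := by
      have h5 : ((t l : ℝ) + 1) ^ q = (1 + (-(1 / ((t l : ℝ) + 2)))) ^ q * ((t l : ℝ) + 2) ^ q := by
        rw [← mul_pow]
        congr 1
        field_simp
        ring
      rw [h5]
      refine mul_le_mul_of_nonneg_right ?_ (by positivity)
      have h6 : (-2 : ℝ) ≤ -(1 / ((t l : ℝ) + 2)) := by
        have h7 : 1 / ((t l : ℝ) + 2) ≤ 1 := by
          rw [div_le_one (by positivity)]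
          have : (0 : ℝ) ≤ t l := Nat.cast_nonneg _
          linarith
        linarith
      refine le_trans ?_ (one_add_mul_le_pow h6 q)
      have h8 : (q : ℝ) / ζ ≤ (t l : ℝ) + 2 := by
        have h9 := htT l
        linarith
      have h10 : (q : ℝ) * (1 / ((t l : ℝ) + 2)) ≤ ζ := by
        rw [div_le_iff₀ hζ0] at h8
        rw [mul_one_div, div_le_iff₀ (by positivity)]
        linarith
      linarith
    rw [h3]
    refine le_trans ?_ h4
    exact mul_le_mul_of_nonneg_left h2 (by linarith)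
  have h11 : ∏ l : Fin k, ((1 - ζ) * (M l : ℝ)) ≤ ∏ l, (gbx q t l : ℝ) :=
    Finset.prod_le_prod (fun l _ => mul_nonneg (by linarith) (Nat.cast_nonneg _)) fun l _ => h1 l
  rw [Finset.prod_mul_distrib, Finset.prod_const, Finset.card_univ, Fintype.card_fin] at h11
  push_cast
  refine le_trans ?_ h11
  refine mul_le_mul_of_nonneg_right ?_ (prod_nonneg fun l _ => Nat.cast_nonneg _)
  have h3 := one_add_mul_le_pow (show (-2 : ℝ) ≤ -ζ by linarith) k
  calc 1 - k * ζ = 1 + k * -ζ := by ring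
    _ ≤ (1 + -ζ) ^ k := h3
    _ = (1 - ζ) ^ k := by ring

/-- from a box to a slightly smaller one -/
theorem avg_mono {k : ℕ} (M M' : Fin k → ℕ) (hM'0 : ∀ l, 1 ≤ M' l) (hM'M : ∀ l, M' l ≤ M l)
    (f : (Fin k → ℕ) → ℝ) (hf : ∀ m, 0 ≤ f m ∧ f m ≤ 1) (κ : ℝ)
    (h : (1 - κ) * ((∏ l, M l : ℕ) : ℝ) ≤ ((∏ l, M' l : ℕ) : ℝ)) :
    ravg M f ≤ ravg M' f + κ := by
  unfold ravg
  set P : ℝ := ((∏ l, M l : ℕ) : ℝ) with hP
  set P' : ℝ := ((∏ l, M' l : ℕ) : ℝ) with hP'
  have hP'0 : 0 < P' := by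
    rw [hP']
    exact_mod_cast Finset.prod_pos fun l _ => hM'0 l
  have hP'P : P' ≤ P := by
    rw [hP, hP']
    exact_mod_cast Finset.prod_le_prod' fun l _ => hM'M l
  have hP0 : 0 < P := hP'0.trans_le hP'P
  have hsub : box M' ⊆ box M := by
    intro m hm
    rw [mem_box] at hm ⊢
    exact fun l => ⟨(hm l).1, (hm l).2.trans (hM'M l)⟩
  have e1 : ∑ m ∈ box M, f m ≤ ∑ m ∈ box M', f m + (P - P') := by
    rw [← Finset.sum_sdiff hsub, add_comm]
    refine add_le_add le_rfl ?_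
    refine (Finset.sum_le_sum fun m _ => (hf m).2).trans ?_
    rw [Finset.sum_const, nsmul_eq_mul, mul_one, Finset.cast_card_sdiff hsub, card_box, card_box]
  have hS0 : 0 ≤ ∑ m ∈ box M', f m := sum_nonneg fun m _ => (hf m).1
  calc 1 / P * ∑ m ∈ box M, f m ≤ 1 / P * (∑ m ∈ box M', f m + (P - P')) := by gcongr
    _ = 1 / P * ∑ m ∈ box M', f m + (1 / P * (P - P')) := by ring
    _ ≤ 1 / P' * ∑ m ∈ box M', f m + κ := by
      refine add_le_add ?_ ?_
      · gcongr
      · rw [one_div, inv_mul_le_iff₀ hP0]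
        linarith

/-- the part below the cutoff -/
theorem cut_bd {k : ℕ} (i : Fin k) (j : ℕ) (M : Fin k → ℕ) (hM : ∀ l, 1 ≤ M l)
    (f : (Fin k → ℕ) → ℝ) (hf : ∀ m, 0 ≤ f m ∧ f m ≤ 1) :
    ravg M f ≤ 1 / ((j : ℝ) + 1) + ravg M (fun m => if cut j (M i) < m i then f m else 0) := by
  unfold ravg
  rw [card_split i M, sum_box i M, sum_box i M]
  have hB0 : (0 : ℝ) < ((box (Function.update M i 1)).card : ℝ) := by
    have h1 := card_split i M
    have h2 : 0 < ∏ l, M l := prod_pos fun l _ => hM l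
    rw [h1] at h2
    exact_mod_cast Nat.pos_of_mul_pos_right h2
  have hN0 : (0 : ℝ) < (M i : ℝ) := by exact_mod_cast hM i
  have hline : ∀ m ∈ box (Function.update M i 1), ∑ n ∈ Icc 1 (M i), f (Function.update m i n) ≤
      (∑ n ∈ Icc 1 (M i), if cut j (M i) < (Function.update m i n) i then
        f (Function.update m i n) else 0) + 1 / ((j : ℝ) + 1) * (M i : ℝ) := by
    intro m _
    simp only [Function.update_self]
    have h1 : ∑ n ∈ Icc 1 (M i), f (Function.update m i n) ≤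
        (∑ n ∈ Icc 1 (M i), if cut j (M i) < n then f (Function.update m i n) else 0) +
        ∑ n ∈ Icc 1 (M i), if n ≤ cut j (M i) then (1 : ℝ) else 0 := by
      rw [← sum_add_distrib]
      refine sum_le_sum fun n _ => ?_
      by_cases h : cut j (M i) < n
      · rw [if_pos h, if_neg (by omega), add_zero]
      · rw [if_neg h, if_pos (by omega), zero_add]
        exact (hf _).2
    refine h1.trans (add_le_add le_rfl ?_)
    rw [sum_boole]
    have h2 : ((Icc 1 (M i)).filter (fun n => n ≤ cut j (M i))).card ≤ cut j (M i) := by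
      refine (card_le_card (t := Icc 1 (cut j (M i))) fun n hn => ?_).trans ?_
      · rw [mem_filter, mem_Icc] at hn
        rw [mem_Icc]
        exact ⟨hn.1.1, hn.2⟩
      · rw [Nat.card_Icc, Nat.add_sub_cancel]
    refine (Nat.cast_le.2 h2).trans ?_
    exact Nat.floor_le (by positivity)
  have h3 := sum_le_sum hline
  rw [sum_add_distrib, sum_const, nsmul_eq_mul] at h3
  have h4 : (0 : ℝ) ≤ 1 / (((box (Function.update M i 1)).card * M i : ℕ) : ℝ) := by positivity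
  refine (mul_le_mul_of_nonneg_left h3 h4).trans ?_
  rw [mul_add, add_comm]
  refine add_le_add (le_of_eq ?_) le_rfl
  push_cast
  field_simp

theorem t_BCT2 : S_BCT2 := by
  intro k d p hk hp
  have hsz : ∀ l, ∃ C : ℝ, 0 ≤ C ∧ ∀ N m : ℕ, 1 ≤ N → m ≤ N →
      |(p l).eval (m : ℝ)| ≤ C * (N : ℝ) ^ (p l).natDegree := fun l => size_bd (p l)
  choose Cl hCl0 hCl using hsz
  obtain ⟨C₀, hC₀def⟩ : ∃ C₀ : ℝ, C₀ = ∑ l, Cl l := ⟨_, rfl⟩
  have hC₀ : 0 ≤ C₀ := by rw [hC₀def]; exact sum_nonneg fun l _ => hCl0 l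
  have hsp : ∀ (i : Fin k) (j : ℕ), ∃ c : ℝ, 0 < c ∧ ∀ᶠ N : ℕ in atTop, ∀ m m' : ℕ,
      cut j N < m → m ≤ N → cut j N < m' → m' ≤ N →
      c * (N : ℝ) ^ (d - 1) * |(m : ℝ) - m'| ≤ |(p i).eval (m : ℝ) - (p i).eval (m' : ℝ)| := by
    intro i j
    have h := sep_abs (p i) (by rw [hp.2 i]; exact hp.1) j
    rw [hp.2 i] at h
    exact h
  choose c hc hcN using hsp
  refine ⟨fun ε => ∑ i, (1 / c i ⌈4 / ε⌉₊ + 1) * (2 * C₀ + 1) * 2 + 1, fun ε => ?_, ?_⟩
  · have : 0 ≤ ∑ i, (1 / c i ⌈4 / ε⌉₊ + 1) * (2 * C₀ + 1) * 2 :=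
      sum_nonneg fun i _ => by have := hc i ⌈4 / ε⌉₊; positivity
    linarith
  intro F L a hF hF1 ha1 ha2 hlim H ε hε
  have hL : 0 ≤ L := by
    have h1 : (0 : ℝ) ≤ 2 * L := by
      refine ge_of_tendsto hlim ?_
      filter_upwards [eventually_ge_atTop 0] with V hV
      exact mul_nonneg (by positivity)
        (intervalIntegral.integral_nonneg (by linarith) fun u _ => (hF1 u).1)
    linarith
  obtain ⟨j, hjdef⟩ : ∃ j : ℕ, j = ⌈4 / ε⌉₊ := ⟨_, rfl⟩
  show ∀ᶠ M in atTop, ravg M (fun m => F (a * sep p m)) ≤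
    ε + (∑ i, (1 / c i ⌈4 / ε⌉₊ + 1) * (2 * C₀ + 1) * 2 + 1) * L
  rw [← hjdef]
  have hj : 1 / ((j : ℝ) + 1) ≤ ε / 4 := by
    have h1 : 4 / ε ≤ j := by rw [hjdef]; exact Nat.le_ceil _
    rw [div_le_iff₀ hε] at h1
    rw [div_le_div_iff₀ (by positivity) (by norm_num)]
    nlinarith
  obtain ⟨q, hq⟩ : ∃ q : ℕ, q = 8 * (k + 1) := ⟨_, rfl⟩
  have hq0 : 0 < q := by omega
  -- one direction
  have hdir : ∀ i : Fin k, ∃ T₂ : ℕ, ∀ t : Fin k → ℕ, T₂ ≤ t i → (∀ l, t l ≤ t i) →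
      ravg (gbx q t) (fun m => F (a * sep p m)) ≤
        ε / 4 + (ε / 4 + ((1 / c i j + 1) * (2 * C₀ + 1) * 2 * L + ε / 4)) := by
    intro i
    obtain ⟨T₁, hT₁⟩ := H i j (ε / 4) (by positivity)
    obtain ⟨N₀, hN₀⟩ := eventually_atTop.1 (hcN i j)
    obtain ⟨B, hB⟩ : ∃ B : ℝ, B = (1 / c i j + 1) * (2 * C₀ + 1) := ⟨_, rfl⟩
    have hcij := hc i j
    have hB0 : 0 < B := by rw [hB]; positivity
    have hev : ∀ᶠ V : ℝ in atTop, (1 / V) * ∫ u in (-V)..V, F u ≤ 2 * L + ε / (4 * B) :=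
      hlim.eventually_le_const (by
        have : 0 < ε / (4 * B) := by positivity
        linarith)
    obtain ⟨V₀, hV₀⟩ := eventually_atTop.1 hev
    obtain ⟨T₃, hT₃⟩ := exists_nat_ge V₀
    refine ⟨max T₁ (max N₀ T₃), fun t ht hti => ?_⟩
    have ht1 : T₁ ≤ t i := (le_max_left _ _).trans ht
    have ht2 : N₀ ≤ t i := ((le_max_left _ _).trans (le_max_right _ _)).trans ht
    have ht3 : T₃ ≤ t i := ((le_max_right _ _).trans (le_max_right _ _)).trans ht
    have hH := hT₁ t ht1 hti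
    rw [← hq] at hH
    have hM1 : ∀ l, 1 ≤ gbx q t l := fun l => Nat.one_le_pow _ _ (Nat.succ_pos _)
    have hMi : ∀ l, gbx q t l ≤ gbx q t i := fun l =>
      Nat.pow_le_pow_left (Nat.succ_le_succ (hti l)) q
    have hMt : t i + 1 ≤ gbx q t i := Nat.le_self_pow hq0.ne' _
    obtain ⟨M, hM⟩ : ∃ M : Fin k → ℕ, M = gbx q t := ⟨_, rfl⟩
    have hNr : ((M i : ℕ) : ℝ) = ((t i : ℝ) + 1) ^ q := by
      rw [hM]
      unfold gbx
      push_cast
      rfl
    rw [← hM] at hH hM1 hMi hMt ⊢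
    obtain ⟨T, hT⟩ : ∃ T : ℝ, T = ((t i : ℝ) + 1) ^ (q * d - 2 * (k + 1)) := ⟨_, rfl⟩
    rw [← hT] at hH
    have ht0 : (1 : ℝ) ≤ (t i : ℝ) + 1 := by
      have : (0 : ℝ) ≤ t i := Nat.cast_nonneg _
      linarith
    have hT0 : 0 < T := by rw [hT]; positivity
    have hT2 : T ≤ ((M i : ℕ) : ℝ) ^ d := by
      rw [hT, hNr, ← pow_mul]
      exact pow_le_pow_right₀ ht0 (Nat.sub_le _ _)
    have hT1' : ((M i : ℕ) : ℝ) ^ (d - 1) ≤ T := by
      rw [hT, hNr, ← pow_mul]
      apply pow_le_pow_right₀ ht0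
      obtain ⟨d', hd'⟩ : ∃ d', d = d' + 1 := ⟨d - 1, by have := hp.1; omega⟩
      rw [hd', Nat.add_sub_cancel, Nat.mul_add, mul_one]
      omega
    -- the cutoff
    refine (cut_bd i j M hM1 _ fun m => hF1 _).trans ?_
    refine add_le_add hj ?_
    have hsplit : ravg M (fun m => if cut j (M i) < m i then F (a * sep p m) else 0) =
        ravg M (fun m => if cut j (M i) < m i then
          F (a * sep p m) - (1 / T) * ∫ r in (0 : ℝ)..T, F (r + a * sep p m) else 0) +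
        ravg M (fun m => if cut j (M i) < m i then
          (1 / T) * ∫ r in (0 : ℝ)..T, F (r + a * sep p m) else 0) := by
      unfold ravg
      rw [← mul_add, ← sum_add_distrib]
      congr 1
      refine sum_congr rfl fun m _ => ?_
      by_cases h : cut j (M i) < m i
      · simp only [if_pos h]
        ring
      · simp only [if_neg h]
        ring
    rw [hsplit]
    refine add_le_add ((le_abs_self _).trans hH) ?_
    have hbox := box_bd p hp i j (c i j) C₀ (hc i j) hC₀ M hM1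
      (hN₀ (M i) (by omega)) (by
        intro m hm
        rw [mem_box] at hm
        unfold sep
        rw [hC₀def, sum_mul]
        refine (abs_sum_le_sum_abs _ _).trans (sum_le_sum fun l _ => ?_)
        have h := hCl l (M i) (m l) (hM1 i) ((hm l).2.trans (hMi l))
        rw [hp.2 l] at h
        exact h) F hF hF1 a ha1 ha2 T hT0 hT2 hT1'
    refine hbox.trans ?_
    obtain ⟨V, hV⟩ : ∃ V : ℝ, V = (2 * C₀ + 1) * ((M i : ℕ) : ℝ) ^ d := ⟨_, rfl⟩
    rw [← hV]
    have hNd : (t i : ℝ) + 1 ≤ ((M i : ℕ) : ℝ) ^ d := by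
      have h1 : ((t i + 1 : ℕ) : ℝ) ≤ ((M i : ℕ) : ℝ) := by exact_mod_cast hMt
      push_cast at h1
      refine h1.trans ?_
      exact le_self_pow₀ (by linarith) (by have := hp.1; omega)
    have hNd0 : 0 < ((M i : ℕ) : ℝ) ^ d := by linarith
    have hVV₀ : V₀ ≤ V := by
      have h1 : (T₃ : ℝ) ≤ t i := by exact_mod_cast ht3
      rw [hV]
      nlinarith
    have hV0 : 0 < V := by rw [hV]; positivity
    have h5 := hV₀ V hVV₀
    have h6 : (1 / ((M i : ℕ) : ℝ) ^ d) * ∫ u in (-V)..V, F u =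
        (2 * C₀ + 1) * ((1 / V) * ∫ u in (-V)..V, F u) := by
      rw [hV]
      field_simp
    rw [h6]
    calc (1 / c i j + 1) * ((2 * C₀ + 1) * ((1 / V) * ∫ u in (-V)..V, F u))
        = B * ((1 / V) * ∫ u in (-V)..V, F u) := by rw [hB]; ring
      _ ≤ B * (2 * L + ε / (4 * B)) := mul_le_mul_of_nonneg_left h5 hB0.le
      _ = (1 / c i j + 1) * (2 * C₀ + 1) * 2 * L + ε / 4 := by
        rw [mul_add, show B * (ε / (4 * B)) = ε / 4 by field_simp, hB]; ring
  choose T₂ hT₂ using hdir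
  obtain ⟨ζ, hζ⟩ : ∃ ζ : ℝ, ζ = min (ε / (4 * ((k : ℝ) + 1))) 1 := ⟨_, rfl⟩
  have hζ0 : 0 < ζ := by rw [hζ]; exact lt_min (by positivity) one_pos
  have hζ1 : ζ ≤ 1 := by rw [hζ]; exact min_le_right _ _
  have hkζ : (k : ℝ) * ζ ≤ ε / 4 := by
    have h1 : ζ ≤ ε / (4 * ((k : ℝ) + 1)) := by rw [hζ]; exact min_le_left _ _
    have hk0 : (0 : ℝ) ≤ k := Nat.cast_nonneg k
    rw [le_div_iff₀ (by positivity)] at h1
    nlinarith
  obtain ⟨T₄, hT₄⟩ := exists_nat_ge ((q : ℝ) / ζ)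
  obtain ⟨T, hT⟩ : ∃ T : ℕ, T = (∑ i, T₂ i) + T₄ := ⟨_, rfl⟩
  have hTT2 : ∀ i, T₂ i ≤ T := fun i => by
    rw [hT]
    exact (single_le_sum (f := T₂) (fun _ _ => Nat.zero_le _) (mem_univ i)).trans
      (Nat.le_add_right _ _)
  have hTT4 : T₄ ≤ T := by rw [hT]; exact Nat.le_add_left _ _
  filter_upwards [eventually_ge_atTop (fun _ : Fin k => (T + 1) ^ q)] with M hM
  have hTq : 1 ≤ (T + 1) ^ q := Nat.one_le_pow _ _ (Nat.succ_pos _)
  have hM1 : ∀ l, 1 ≤ M l := fun l => hTq.trans (hM l)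
  choose t ht1 ht2 using fun l => exists_root hq0 (hM1 l)
  have htT : ∀ l, T ≤ t l := by
    intro l
    have h1 : (T + 1) ^ q < (t l + 2) ^ q := lt_of_le_of_lt (hM l) (ht2 l)
    have h2 := lt_of_pow_lt_pow_left₀ q (Nat.zero_le _) h1
    omega
  have : Nonempty (Fin k) := ⟨⟨0, hk⟩⟩
  obtain ⟨i, -, hi⟩ := exists_max_image univ M univ_nonempty
  have hti : ∀ l, t l ≤ t i := by
    intro l
    have h1 : (t l + 1) ^ q < (t i + 2) ^ q :=
      lt_of_le_of_lt ((ht1 l).trans (hi l (mem_univ l))) (ht2 i)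
    have h2 := lt_of_pow_lt_pow_left₀ q (Nat.zero_le _) h1
    omega
  have h1 := hT₂ i t ((hTT2 i).trans (htT i)) hti
  have h2 := ratio_bd q ζ hζ0 hζ1 M t ht2 (fun l => hT₄.trans (by exact_mod_cast hTT4.trans (htT l)))
  have h3 := avg_mono M (gbx q t) (fun l => Nat.one_le_pow _ _ (Nat.succ_pos _)) ht1
    (fun m => F (a * sep p m)) (fun m => hF1 _) (k * ζ) h2
  have h4 : (1 / c i j + 1) * (2 * C₀ + 1) * 2 ≤
      ∑ i, (1 / c i j + 1) * (2 * C₀ + 1) * 2 :=
    single_le_sum (f := fun i => (1 / c i j + 1) * (2 * C₀ + 1) * 2)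
      (fun i _ => by have := hc i j; positivity) (mem_univ i)
  have h5 := mul_le_mul_of_nonneg_right h4 hL
  have h6 : (∑ i, (1 / c i j + 1) * (2 * C₀ + 1) * 2 + 1) * L =
      (∑ i, (1 / c i j + 1) * (2 * C₀ + 1) * 2) * L + L := by ring
  rw [h6]
  linarith

end Pool.Agent.R408.TB
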